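import Mathlib
import Pool.Agent.Helper40.Ct.All

/-!
# The colourful Tverberg theorem for regression depth of hyperplanes: all dimensions, `r + 1` prime
-/

set_option autoImplicit false

namespace Pool.Agent.Results.MP_034a88_co.AllDimensionsPrime

/-- Euclidean space `ℝ^d`. -/
abbrev V (d : ℕ) := EuclideanSpace ℝ (Fin d)

/-- `H` is an affine hyperplane of `ℝ^d`. -/
def IsHyperplane {d : ℕ} (H : Set (V d)) : Prop :=
  ∃ n : V d, n ≠ 0 ∧ ∃ c : ℝ, H = {x | inner ℝ n x = c}

/-- The ray emanating from `q` in direction `v`. -/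
def ray {d : ℕ} (q v : V d) : Set (V d) := {x | ∃ t : ℝ, 0 ≤ t ∧ x = q + t • v}

/-- The direction `v` is parallel to `H`: translation by `v` maps `H` into itself. -/
def ParallelTo {d : ℕ} (v : V d) (H : Set (V d)) : Prop := ∀ x ∈ H, x + v ∈ H

/-- The regression depth of `q` with respect to the family `B`: the minimum, over all rays
emanating from `q`, of the number of members that the ray intersects or is parallel to. -/
noncomputable def RD {d : ℕ} {ι : Type} (B : ι → Set (V d)) (q : V d) : ℕ :=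
  ⨅ v : {v : V d // v ≠ 0},
    Nat.card {i : ι // (ray q v.1 ∩ B i).Nonempty ∨ ParallelTo v.1 (B i)}

/-- The statement of Q1 for given `d` and `r`.  The `j`-th part of the colourful partition
consists of the hyperplanes `A i (σ i j)`, one for each colour `i`. -/
def QOne (d r : ℕ) : Prop :=
  ∀ A : Fin (d + 1) → Fin r → Set (V d), (∀ i j, IsHyperplane (A i j)) →
    ∃ (σ : Fin (d + 1) → Equiv.Perm (Fin r)) (q : V d),
      ∀ j : Fin r, 1 ≤ RD (fun i => A i (σ i j)) q

/-- The version with larger colour classes: each of the `d + 1` colour classes consists of `m`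
hyperplanes, and one looks for `r` pairwise disjoint rainbow parts
`{A i (σ i j) : i}`, `j = 1, …, r`. -/
def Rainbow (d m r : ℕ) : Prop :=
  ∀ A : Fin (d + 1) → Fin m → Set (V d), (∀ i j, IsHyperplane (A i j)) →
    ∃ (σ : Fin (d + 1) → (Fin r ↪ Fin m)) (q : V d),
      ∀ j : Fin r, 1 ≤ RD (fun i => A i (σ i j)) q

theorem result :
    (∀ d r : ℕ, 1 ≤ d → (r + 1).Prime → QOne d r) ∧
    (∀ d r m : ℕ, 1 ≤ d → 1 ≤ r → 2 * r ≤ m + 1 → Rainbow d m r) := by
  have hmain : ∀ d r : ℕ, 1 ≤ d → (r + 1).Prime → QOne d r :=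
    fun d r hd hr => Pool.Agent.Helper40.Ct.all_dims d r hd hr
  refine ⟨hmain, ?_⟩
  intro d r m hd hr hm A hA
  obtain ⟨p, hp, hrp, hp2⟩ := Nat.exists_prime_lt_and_le_two_mul r (by omega)
  obtain ⟨s, rfl⟩ : ∃ s, p = s + 1 := ⟨p - 1, by have := hp.pos; omega⟩
  have hrs : r ≤ s := by omega
  have hsm : s ≤ m := by omega
  obtain ⟨σ, q, hq⟩ := hmain d s hd hp (fun i j => A i (Fin.castLE hsm j))
    (fun i j => hA i _)
  refine ⟨fun i => ⟨fun j => Fin.castLE hsm (σ i (Fin.castLE hrs j)), ?_⟩, q, fun j => ?_⟩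
  · intro a b hab
    have h1 := Fin.castLE_injective hsm hab
    have h2 := (σ i).injective h1
    exact Fin.castLE_injective hrs h2
  · exact hq (Fin.castLE hrs j)

end Pool.Agent.Results.MP_034a88_co.AllDimensionsPrime
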