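import Mathlib
import Pool.Agent.Helper40.Ct.All
import Pool.Agent.Helper95.Ct.Frac

/-!
# The colourful Tverberg problem for regression depth of hyperplanes: all dimensions and all `r`;
fractional partitions, and partitions when all but two of the classes are larger
-/

set_option autoImplicit false

namespace Pool.Agent.Results.MP_034a88_co.FractionalAllR

/-- Euclidean space `ℝ^d`. -/
abbrev V (d : ℕ) := EuclideanSpace ℝ (Fin d)

/-- `H` is an affine hyperplane of `ℝ^d`. -/
def IsHyperplane {d : ℕ} (H : Set (V d)) : Prop :=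
  ∃ n : V d, n ≠ 0 ∧ ∃ c : ℝ, H = {x | inner ℝ n x = c}

/-- The ray emanating from `q` in direction `v`. -/
def ray {d : ℕ} (q v : V d) : Set (V d) := {x | ∃ t : ℝ, 0 ≤ t ∧ x = q + t • v}

/-- The direction `v` is parallel to `H`: translation by `v` maps `H` into itself. -/
def ParallelTo {d : ℕ} (v : V d) (H : Set (V d)) : Prop := ∀ x ∈ H, x + v ∈ H

/-- The regression depth of `q` with respect to the family `B`: the minimum, over all rays
emanating from `q`, of the number of members that the ray intersects or is parallel to. -/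
noncomputable def RD {d : ℕ} {ι : Type} (B : ι → Set (V d)) (q : V d) : ℕ :=
  ⨅ v : {v : V d // v ≠ 0},
    Nat.card {i : ι // (ray q v.1 ∩ B i).Nonempty ∨ ParallelTo v.1 (B i)}

/-- The fractional version, with weights: the colour class `i` consists of `m i` hyperplanes
`A i a` of weights `w i a ≥ 0`, and all classes have the same total weight `W`.  There are a point
`q` and nonnegative weights `x T` of the rainbow parts `T` (one hyperplane of each colour) such
that the parts of nonzero weight have regression depth at least `1` at `q`, and the parts containing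
the hyperplane `A i a` have total weight `w i a`.  (With `W = r`, `m i = r`, all `w i a = 1`
and `x T ∈ {0, 1}` this would be Q1.) -/
def Fractional (d : ℕ) : Prop :=
  ∀ (m : Fin (d + 1) → ℕ) (A : ∀ i, Fin (m i) → Set (V d)), (∀ i a, IsHyperplane (A i a)) →
    ∀ (w : ∀ i, Fin (m i) → ℝ) (W : ℝ), (∀ i a, 0 ≤ w i a) → (∀ i, ∑ a, w i a = W) →
    ∃ (q : V d) (x : (∀ i, Fin (m i)) → ℝ), (∀ T, 0 ≤ x T) ∧
      (∀ T, x T ≠ 0 → 1 ≤ RD (fun i => A i (T i)) q) ∧
      ∀ i a, (∑ T : (∀ i, Fin (m i)), if T i = a then x T else 0) = w i a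

/-- If the `d + 1` colour classes consist of at least `r` hyperplanes each, and all of them with at
most `k` exceptions have at least `M` members, then there are `r` pairwise disjoint rainbow parts
`{A i (σ i j) : i}`, `j = 1, …, r`, and a point `q` of regression depth at least `1` with respect
to each of them.  (Q1 for `d` and `r` is `Sizes (d + 1) d r r`.) -/
def Sizes (k d r M : ℕ) : Prop :=
  ∀ (m : Fin (d + 1) → ℕ) (A : ∀ i, Fin (m i) → Set (V d)), (∀ i a, IsHyperplane (A i a)) →
    (∀ i, r ≤ m i) → Nat.card {i // m i < M} ≤ k →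
    ∃ (σ : ∀ i, Fin r ↪ Fin (m i)) (q : V d), ∀ j : Fin r, 1 ≤ RD (fun i => A i (σ i j)) q

open Finset

/-- the prime case -/
theorem key (d R : ℕ) (hd : 1 ≤ d) (hR : (R + 1).Prime) (B : Fin (d + 1) → Fin R → Set (V d))
    (hB : ∀ i j, IsHyperplane (B i j)) :
    ∃ (σ : Fin (d + 1) → Equiv.Perm (Fin R)) (q : V d),
      ∀ j : Fin R, 1 ≤ RD (fun i => B i (σ i j)) q :=
  Pool.Agent.Helper40.Ct.all_dims d R hd hR B hB

theorem fractional (d : ℕ) (hd : 1 ≤ d) : Fractional d := by
  intro m A hA w W hw hW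
  exact Pool.Agent.Helper95.Ct.frac_abs (fun i => Fin (m i))
    (fun q : V d => {T | 1 ≤ RD (fun i => A i (T i)) q})
    (fun N hN l => key d N hd hN (fun i j => A i (l i j)) fun i j => hA i _) w W hw hW

theorem core (d r R : ℕ) (hd : 1 ≤ d) (hR : (R + 1).Prime) (m : Fin (d + 1) → ℕ)
    (A : ∀ i, Fin (m i) → Set (V d)) (hA : ∀ i a, IsHyperplane (A i a)) (hr : ∀ i, r ≤ m i)
    (c : Fin R → Fin r)
    (hyp : ∀ σ : Fin (d + 1) → Equiv.Perm (Fin R), ∃ g : Fin r → Fin R, Function.Injective g ∧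
      ∀ i, m i < R → Function.Injective fun a => c (σ i (g a))) :
    ∃ (σ : ∀ i, Fin r ↪ Fin (m i)) (q : V d), ∀ j : Fin r, 1 ≤ RD (fun i => A i (σ i j)) q := by
  let f : ∀ i, Fin R → Fin (m i) := fun i j =>
    if h : R ≤ m i then Fin.castLE h j else Fin.castLE (hr i) (c j)
  obtain ⟨σ, q, hq⟩ := key d R hd hR (fun i j => A i (f i j)) fun i j => hA i _
  obtain ⟨g, hg, hgi⟩ := hyp σ
  refine ⟨fun i => ⟨fun a => f i (σ i (g a)), ?_⟩, q, fun j => hq (g j)⟩
  intro a b hab
  simp only [f] at hab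
  by_cases h : R ≤ m i
  · rw [dif_pos h, dif_pos h] at hab
    exact hg ((σ i).injective (Fin.castLE_injective h hab))
  · rw [dif_neg h, dif_neg h] at hab
    exact hgi i (not_le.1 h) (Fin.castLE_injective (hr i) hab)

theorem sizes1 (d r R : ℕ) (hd : 1 ≤ d) (hr : 1 ≤ r) (hrR : r ≤ R) (hR : (R + 1).Prime) :
    Sizes 1 d r R := by
  intro m A hA hm hk
  have hr0 : 0 < r := hr
  obtain ⟨i₀, hi₀⟩ : ∃ i₀ : Fin (d + 1), ∀ i, m i < R → i = i₀ := by
    rw [Nat.card_eq_fintype_card, Fintype.card_subtype] at hk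
    rcases (univ.filter fun i => m i < R).eq_empty_or_nonempty with h | ⟨i₀, h⟩
    · refine ⟨0, fun i hi => ?_⟩
      exact absurd (mem_filter.2 ⟨mem_univ i, hi⟩) (by rw [h]; exact notMem_empty i)
    · exact ⟨i₀, fun i hi =>
        card_le_one.1 hk i (mem_filter.2 ⟨mem_univ i, hi⟩) i₀ h⟩
  refine core d r R hd hR m A hA hm (fun j => ⟨j.val % r, Nat.mod_lt _ hr0⟩) fun σ => ?_
  have hex : ∀ a : Fin r, ∃ j : Fin R, (⟨(σ i₀ j).val % r, Nat.mod_lt _ hr0⟩ : Fin r) = a := by
    intro a
    refine ⟨(σ i₀).symm (Fin.castLE hrR a), ?_⟩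
    apply Fin.ext
    simp only [Equiv.apply_symm_apply, Fin.val_castLE]
    exact Nat.mod_eq_of_lt a.2
  choose g hg using hex
  refine ⟨g, fun a b hab => ?_, fun i hi a b hab => ?_⟩
  · rw [← hg a, ← hg b, hab]
  · rw [hi₀ i hi] at hab
    simp only at hab
    rwa [hg a, hg b] at hab

theorem sizes2 (d r R n : ℕ) (hd : 1 ≤ d) (hr : 1 ≤ r) (hR : (R + 1).Prime)
    (h1 : (r - 1) * n < R) (h2 : R ≤ r * n) : Sizes 2 d r R := by
  intro m A hA hm hk
  have hr0 : 0 < r := hr
  obtain ⟨i₀, i₁, hi⟩ : ∃ i₀ i₁ : Fin (d + 1), ∀ i, m i < R → i = i₀ ∨ i = i₁ := by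
    rw [Nat.card_eq_fintype_card, Fintype.card_subtype] at hk
    set K := univ.filter fun i => m i < R with hK
    have hmem : ∀ i, m i < R → i ∈ K := fun i hi => mem_filter.2 ⟨mem_univ i, hi⟩
    rcases K.eq_empty_or_nonempty with h | ⟨i₀, h⟩
    · refine ⟨0, 0, fun i hi => ?_⟩
      exact absurd (hmem i hi) (by rw [h]; exact notMem_empty i)
    · rcases (K.erase i₀).eq_empty_or_nonempty with h' | ⟨i₁, h'⟩
      · refine ⟨i₀, i₀, fun i hi => ?_⟩
        by_contra hcon
        have h3 : i ∈ K.erase i₀ := mem_erase.2 ⟨fun h4 => hcon (Or.inl h4), hmem i hi⟩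
        rw [h'] at h3
        exact notMem_empty i h3
      · refine ⟨i₀, i₁, fun i hi => ?_⟩
        by_cases h4 : i = i₀
        · exact Or.inl h4
        · right
          have h5 : #(K.erase i₀) ≤ 1 := by
            rw [card_erase_of_mem h]
            omega
          exact card_le_one.1 h5 i (mem_erase.2 ⟨h4, hmem i hi⟩) i₁ h'
  refine core d r R hd hR m A hA hm (fun j => ⟨j.val % r, Nat.mod_lt _ hr0⟩) fun σ => ?_
  have hfib : ∀ i (a : Fin r),
      #(univ.filter fun j : Fin R => (⟨(σ i j).val % r, Nat.mod_lt _ hr0⟩ : Fin r) = a) ≤ n := by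
    intro i a
    refine le_trans ?_ (Pool.Agent.Helper95.Ct.res_fib R r n hr0 h2 a)
    refine card_le_card_of_injOn (σ i) (fun j hj => ?_) (σ i).injective.injOn
    simp only [coe_filter, mem_univ, true_and, Set.mem_setOf_eq] at hj ⊢
    exact hj
  obtain ⟨g, hg1, hg2⟩ := Pool.Agent.Helper95.Ct.hall_two R r n
    (fun j => ⟨(σ i₀ j).val % r, Nat.mod_lt _ hr0⟩)
    (fun j => ⟨(σ i₁ j).val % r, Nat.mod_lt _ hr0⟩) (hfib i₀) (hfib i₁) h1
  refine ⟨g, fun a b hab => ?_, fun i hii => ?_⟩
  · rw [← hg1 a, ← hg1 b, hab]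
  · rcases hi i hii with rfl | rfl
    · intro a b hab
      have h3 := hg1 a
      have h4 := hg1 b
      simp only at h3 h4 hab
      rwa [h3, h4] at hab
    · exact hg2

theorem sizes_mono (k d r M M' : ℕ) (hM : M ≤ M') (h : Sizes k d r M) : Sizes k d r M' := by
  intro m A hA hm hk
  refine h m A hA hm (le_trans ?_ hk)
  exact Nat.card_le_card_of_injective (fun i : {i // m i < M} => (⟨i.1, by omega⟩ : {i // m i < M'}))
    (fun a b hab => Subtype.ext (by simpa using hab))

/-- **The theorem.**  For all dimensions `d` and all `r`: the fractional version; `r` disjoint parts if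
all but two classes have at least `2 r² - 1` members (or at least `R` members, where `R + 1` is prime
and `(r - 1) n < R ≤ r n` for some `n ≥ 2`, for example `R = r n`); `r` disjoint parts if all but one
class have at least `2 r - 1` members (or at least `R > r` members, `R + 1` prime). -/
theorem result :
    (∀ d : ℕ, 1 ≤ d → Fractional d) ∧
    (∀ d r : ℕ, 1 ≤ d → 1 ≤ r → Sizes 2 d r (2 * r ^ 2 - 1)) ∧
    (∀ d r : ℕ, 1 ≤ d → 1 ≤ r → Sizes 1 d r (2 * r - 1)) ∧
    (∀ d r R n : ℕ, 1 ≤ d → 1 ≤ r → 2 ≤ n → (R + 1).Prime → (r - 1) * n < R → R ≤ r * n →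
      Sizes 2 d r R) ∧
    (∀ d r R : ℕ, 1 ≤ d → 1 ≤ r → r < R → (R + 1).Prime → Sizes 1 d r R) := by
  refine ⟨fractional, ?_, ?_, fun d r R n hd hr _ hR h1 h2 => sizes2 d r R n hd hr hR h1 h2,
    fun d r R hd hr h hR => sizes1 d r R hd hr h.le hR⟩
  · intro d r hd hr
    obtain ⟨p, hp, hrp, hp2⟩ := Nat.exists_prime_lt_and_le_two_mul (r ^ 2)
      (pow_ne_zero 2 (by omega))
    obtain ⟨R, rfl⟩ : ∃ R, p = R + 1 := ⟨p - 1, by have := hp.pos; omega⟩
    refine sizes_mono 2 d r R _ (by omega) ?_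
    have h0 : r * (R / r) + R % r = R := Nat.div_add_mod R r
    have hmod : R % r < r := Nat.mod_lt _ hr
    have hle : r ≤ R / r := by
      rw [Nat.le_div_iff_mul_le hr]
      have : r ^ 2 ≤ R := by omega
      nlinarith
    by_cases hm : R % r = 0
    · refine sizes2 d r R (R / r) hd hr hp ?_ (by omega)
      have h3 : (r - 1) * (R / r) + R / r = r * (R / r) := by
        obtain ⟨s, rfl⟩ : ∃ s, r = s + 1 := ⟨r - 1, by omega⟩
        simp only [Nat.add_sub_cancel]
        ring
      omega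
    · refine sizes2 d r R (R / r + 1) hd hr hp ?_ ?_
      · have h3 : (r - 1) * (R / r + 1) + (R / r + 1) = r * (R / r) + r := by
          obtain ⟨s, rfl⟩ : ∃ s, r = s + 1 := ⟨r - 1, by omega⟩
          simp only [Nat.add_sub_cancel]
          ring
        omega
      · rw [mul_add, mul_one]
        omega
  · intro d r hd hr
    obtain ⟨p, hp, hrp, hp2⟩ := Nat.exists_prime_lt_and_le_two_mul r (by omega)
    obtain ⟨R, rfl⟩ : ∃ R, p = R + 1 := ⟨p - 1, by have := hp.pos; omega⟩
    exact sizes_mono 1 d r R _ (by omega) (sizes1 d r R hd hr (by omega) hp)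

end Pool.Agent.Results.MP_034a88_co.FractionalAllR
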