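import Mathlib
import Pool.Agent.Helper48.RD.Main

/-!
# The colourful Tverberg theorem for regression depth of lines in the plane
-/

namespace Pool.Agent.Results.MP_034a88_co.PlanarAllR

/-- Euclidean space `ℝ^d`. -/
abbrev V (d : ℕ) := EuclideanSpace ℝ (Fin d)

/-- `H` is an affine hyperplane of `ℝ^d`. -/
def IsHyperplane {d : ℕ} (H : Set (V d)) : Prop :=
  ∃ n : V d, n ≠ 0 ∧ ∃ c : ℝ, H = {x | inner ℝ n x = c}

/-- The ray emanating from `q` in direction `v`. -/
def ray {d : ℕ} (q v : V d) : Set (V d) := {x | ∃ t : ℝ, 0 ≤ t ∧ x = q + t • v}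

/-- The direction `v` is parallel to `H`: translation by `v` maps `H` into itself. -/
def ParallelTo {d : ℕ} (v : V d) (H : Set (V d)) : Prop := ∀ x ∈ H, x + v ∈ H

/-- The regression depth of `q` with respect to the family `B`: the minimum, over all rays
emanating from `q`, of the number of members that the ray intersects or is parallel to. -/
noncomputable def RD {d : ℕ} {ι : Type} (B : ι → Set (V d)) (q : V d) : ℕ :=
  ⨅ v : {v : V d // v ≠ 0},
    Nat.card {i : ι // (ray q v.1 ∩ B i).Nonempty ∨ ParallelTo v.1 (B i)}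

/-- The statement of Q1 for given `d` and `r`.  The `j`-th part of the colourful partition
consists of the hyperplanes `A i (σ i j)`, one for each colour `i`. -/
def QOne (d r : ℕ) : Prop :=
  ∀ A : Fin (d + 1) → Fin r → Set (V d), (∀ i j, IsHyperplane (A i j)) →
    ∃ (σ : Fin (d + 1) → Equiv.Perm (Fin r)) (q : V d),
      ∀ j : Fin r, 1 ≤ RD (fun i => A i (σ i j)) q

/-- Normal form of a line in the plane. -/
theorem line_normal {H : Set (V 2)} (hH : IsHyperplane H) :
    ∃ α c : ℝ, 0 ≤ α ∧ α < Real.pi ∧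
      H = {x | x 0 * Real.cos α + x 1 * Real.sin α = c} := by
  obtain ⟨n, hn, c, rfl⟩ := hH
  set z : ℂ := ⟨n 0, n 1⟩ with hz
  have hz0 : z ≠ 0 := by
    intro h
    apply hn
    have h1 : n 0 = 0 := congrArg Complex.re h
    have h2 : n 1 = 0 := congrArg Complex.im h
    ext i
    fin_cases i
    · exact h1
    · exact h2
  set ρ : ℝ := ‖z‖ with hρ
  have hρ0 : 0 < ρ := norm_pos_iff.mpr hz0
  set θ : ℝ := Complex.arg z with hθ
  have hn0 : n 0 = ρ * Real.cos θ := (Complex.norm_mul_cos_arg z).symm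
  have hn1 : n 1 = ρ * Real.sin θ := (Complex.norm_mul_sin_arg z).symm
  have hin : ∀ x : V 2, inner ℝ n x = n 0 * x 0 + n 1 * x 1 := by
    intro x
    simp [PiLp.inner_apply, Fin.sum_univ_two, mul_comm]
  have hθ1 : -Real.pi < θ := Complex.neg_pi_lt_arg z
  have hθ2 : θ ≤ Real.pi := Complex.arg_le_pi z
  by_cases h1 : 0 ≤ θ ∧ θ < Real.pi
  · refine ⟨θ, c / ρ, h1.1, h1.2, ?_⟩
    ext x
    simp only [Set.mem_setOf_eq, hin, hn0, hn1]
    rw [eq_div_iff hρ0.ne']
    constructor <;> intro h <;> linarith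
  · by_cases h2 : θ = Real.pi
    · refine ⟨0, -c / ρ, le_rfl, Real.pi_pos, ?_⟩
      ext x
      simp only [Set.mem_setOf_eq, hin, hn0, hn1, h2, Real.cos_pi, Real.sin_pi, Real.cos_zero,
        Real.sin_zero]
      rw [eq_div_iff hρ0.ne']
      constructor <;> intro h <;> linarith
    · have h3 : θ < 0 := by
        by_contra h
        push Not at h
        exact h1 ⟨h, lt_of_le_of_ne hθ2 h2⟩
      refine ⟨θ + Real.pi, -c / ρ, by linarith, by linarith, ?_⟩
      ext x
      simp only [Set.mem_setOf_eq, hin, hn0, hn1, Real.cos_add_pi, Real.sin_add_pi]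
      rw [eq_div_iff hρ0.ne']
      constructor <;> intro h <;> linarith

/-- **Planar case of Q1, for every `r`.** -/
theorem result (r : ℕ) (hr : 0 < r) : QOne 2 r := by
  intro A hA
  choose α c h0 h1 hAc using fun i j => line_normal (hA i j)
  obtain ⟨q, σ, hσ⟩ := RD.main_normal r hr (fun e => α e.1 e.2) (fun e => c e.1 e.2)
    (fun e => h0 _ _) (fun e => h1 _ _)
  refine ⟨σ, !₂[q.1, q.2], ?_⟩
  intro j
  have hne : Nonempty {v : V 2 // v ≠ 0} := by
    refine ⟨⟨!₂[1, 0], ?_⟩⟩
    intro h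
    have : (!₂[(1 : ℝ), 0] : V 2) 0 = 0 := by rw [h]; rfl
    simp at this
  unfold RD
  refine le_ciInf ?_
  rintro ⟨v, hv⟩
  obtain ⟨i, hi⟩ := hσ j (v 0) (v 1)
  rw [Nat.one_le_iff_ne_zero, ← Nat.pos_iff_ne_zero, Nat.card_pos_iff]
  refine ⟨⟨⟨i, ?_⟩⟩, inferInstance⟩
  set a := α i (σ i j) with ha
  set b := c i (σ i j) with hb
  have hAi : A i (σ i j) = {x | x 0 * Real.cos a + x 1 * Real.sin a = b} := hAc i (σ i j)
  simp only [_root_.RD.del] at hi
  rw [← ha, ← hb] at hi
  by_cases hm : Real.cos a * v 0 + Real.sin a * v 1 = 0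
  · right
    intro x hx
    simp only at hx ⊢
    rw [hAi] at hx ⊢
    simp only [Set.mem_setOf_eq, PiLp.add_apply] at hx ⊢
    linarith
  · left
    refine ⟨!₂[q.1, q.2] + ((b - (q.1 * Real.cos a + q.2 * Real.sin a)) /
      (Real.cos a * v 0 + Real.sin a * v 1)) • v, ⟨_, ?_, rfl⟩, ?_⟩
    · rcases lt_or_gt_of_ne hm with h | h
      · apply div_nonneg_of_nonpos _ h.le
        by_contra hcon
        push Not at hcon
        have := mul_neg_of_pos_of_neg hcon h
        linarith
      · apply div_nonneg _ h.le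
        by_contra hcon
        push Not at hcon
        have := mul_neg_of_neg_of_pos hcon h
        linarith
    · simp only
      rw [hAi]
      simp only [Set.mem_setOf_eq, PiLp.add_apply, PiLp.smul_apply, smul_eq_mul]
      simp only [PiLp.toLp_apply, Matrix.cons_val_zero, Matrix.cons_val_one]
      field_simp
      ring

end Pool.Agent.Results.MP_034a88_co.PlanarAllR
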