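import Mathlib
import Pool.Agent.Helper95.Ct.Range
import Pool.Agent.Results.MP_034a88_co.PlanarAllR
import Pool.Agent.Results.MP_034a88_co.FractionalAllR

/-!
# The colourful Tverberg problem for regression depth of hyperplanes: at most `rank + 1` parts, rank at most
two, and three parts in every dimension
-/

set_option autoImplicit false

open Finset Module

namespace Pool.Agent.Results.MP_034a88_co.RankRange

/-- Euclidean space `ℝ^d`. -/
abbrev V (d : ℕ) := EuclideanSpace ℝ (Fin d)

/-- `H` is an affine hyperplane of `ℝ^d`. -/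
def IsHyperplane {d : ℕ} (H : Set (V d)) : Prop :=
  ∃ n : V d, n ≠ 0 ∧ ∃ c : ℝ, H = {x | inner ℝ n x = c}

/-- The ray emanating from `q` in direction `v`. -/
def ray {d : ℕ} (q v : V d) : Set (V d) := {x | ∃ t : ℝ, 0 ≤ t ∧ x = q + t • v}

/-- The direction `v` is parallel to `H`: translation by `v` maps `H` into itself. -/
def ParallelTo {d : ℕ} (v : V d) (H : Set (V d)) : Prop := ∀ x ∈ H, x + v ∈ H

/-- The regression depth of `q` with respect to the family `B`: the minimum, over all rays
emanating from `q`, of the number of members that the ray intersects or is parallel to. -/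
noncomputable def RD {d : ℕ} {ι : Type} (B : ι → Set (V d)) (q : V d) : ℕ :=
  ⨅ v : {v : V d // v ≠ 0},
    Nat.card {i : ι // (ray q v.1 ∩ B i).Nonempty ∨ ParallelTo v.1 (B i)}

/-- The conclusion of Q1 for the colour classes `A i`.  The `j`-th part of the colourful partition
consists of the hyperplanes `A i (σ i j)`, one for each colour `i`. -/
def Partitions {d r : ℕ} (A : Fin (d + 1) → Fin r → Set (V d)) : Prop :=
  ∃ (σ : Fin (d + 1) → Equiv.Perm (Fin r)) (q : V d), ∀ j : Fin r, 1 ≤ RD (fun i => A i (σ i j)) q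

/-- The statement of Q1 for given `d` and `r`. -/
def QOne (d r : ℕ) : Prop :=
  ∀ A : Fin (d + 1) → Fin r → Set (V d), (∀ i j, IsHyperplane (A i j)) → Partitions A

/-- The rank of the arrangement: the dimension of the span of all normal vectors. -/
noncomputable def rank {d r : ℕ} (A : Fin (d + 1) → Fin r → Set (V d)) : ℕ :=
  finrank ℝ (Submodule.span ℝ
    {n : V d | n ≠ 0 ∧ ∃ (i : Fin (d + 1)) (j : Fin r) (c : ℝ), A i j = {x | inner ℝ n x = c}})

section

variable {d : ℕ}

theorem mem_plane (n : V d) (hn : n ≠ 0) (c : ℝ) : inner ℝ n ((c / ‖n‖ ^ 2) • n) = c := by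
  rw [inner_smul_right, real_inner_self_eq_norm_sq, div_mul_cancel₀]
  exact pow_ne_zero 2 (norm_ne_zero_iff.2 hn)

/-- positive depth from the sign condition -/
theorem rd_of {k : ℕ} (hd : 1 ≤ d) (n : Fin k → V d) (c : Fin k → ℝ) (q : V d)
    (B : Fin k → Set (V d)) (hB : ∀ i, B i = {x | inner ℝ (n i) x = c i})
    (h : ∀ u : V d, ∃ i, 0 ≤ (c i - inner ℝ (n i) q) * inner ℝ (n i) u) : 1 ≤ RD B q := by
  have hne : Nonempty {v : V d // v ≠ 0} := by
    refine ⟨⟨EuclideanSpace.single (⟨0, hd⟩ : Fin d) (1 : ℝ), ?_⟩⟩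
    intro h0
    have h1 := congrArg (fun v : V d => ‖v‖) h0
    simp at h1
  unfold RD
  refine le_ciInf ?_
  rintro ⟨v, hv⟩
  obtain ⟨i, hi⟩ := h v
  rw [Nat.one_le_iff_ne_zero, ← Nat.pos_iff_ne_zero, Nat.card_pos_iff]
  refine ⟨⟨⟨i, ?_⟩⟩, inferInstance⟩
  rw [hB i]
  by_cases hm : inner ℝ (n i) v = (0 : ℝ)
  · right
    intro x hx
    have hx' : inner ℝ (n i) x = c i := hx
    change inner ℝ (n i) (x + v) = c i
    rw [inner_add_right, hx', hm, add_zero]
  · left
    refine ⟨q + ((c i - inner ℝ (n i) q) / inner ℝ (n i) v) • v, ⟨_, ?_, rfl⟩, ?_⟩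
    · rcases lt_or_gt_of_ne hm with h | h
      · apply div_nonneg_of_nonpos _ h.le
        by_contra hcon
        push Not at hcon
        have := mul_neg_of_pos_of_neg hcon h
        linarith
      · apply div_nonneg _ h.le
        by_contra hcon
        push Not at hcon
        have := mul_neg_of_neg_of_pos hcon h
        linarith
    · change inner ℝ (n i) (q + ((c i - inner ℝ (n i) q) / inner ℝ (n i) v) • v) = c i
      rw [inner_add_right, inner_smul_right, div_mul_cancel₀ _ hm]
      ring

/-- the sign condition from positive depth -/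
theorem rd_to {k : ℕ} (hk : 0 < k) (n : Fin k → V d) (hn : ∀ i, n i ≠ 0) (c : Fin k → ℝ) (q : V d)
    (B : Fin k → Set (V d)) (hB : ∀ i, B i = {x | inner ℝ (n i) x = c i}) (h : 1 ≤ RD B q)
    (u : V d) : ∃ i, 0 ≤ (c i - inner ℝ (n i) q) * inner ℝ (n i) u := by
  by_cases hu : u = 0
  · refine ⟨⟨0, hk⟩, ?_⟩
    rw [hu, inner_zero_right, mul_zero]
  · unfold RD at h
    have h1 := le_trans h (ciInf_le (OrderBot.bddBelow _) (⟨u, hu⟩ : {v : V d // v ≠ 0}))
    have h2 := Nat.card_pos_iff.1 (Nat.lt_of_lt_of_le Nat.zero_lt_one h1)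
    obtain ⟨⟨i, hi⟩⟩ := h2.1
    refine ⟨i, ?_⟩
    rw [hB i] at hi
    rcases hi with ⟨x, ⟨t, ht, hx⟩, hx2⟩ | hp
    · have hx3 : inner ℝ (n i) x = c i := hx2
      rw [hx, inner_add_right, inner_smul_right] at hx3
      have h4 : c i - inner ℝ (n i) q = t * inner ℝ (n i) u := by linarith
      rw [h4, mul_assoc]
      exact mul_nonneg ht (mul_self_nonneg _)
    · have h3 : inner ℝ (n i) ((c i / ‖n i‖ ^ 2) • n i + u) = c i :=
        hp _ (mem_plane (n i) (hn i) (c i))
      rw [inner_add_right, mem_plane (n i) (hn i) (c i)] at h3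
      have h4 : inner ℝ (n i) u = (0 : ℝ) := by linarith
      rw [h4, mul_zero]

/-- normals of the same hyperplane are proportional -/
theorem normal_span (n N : V d) (hN : N ≠ 0) (c C : ℝ)
    (h : {x : V d | inner ℝ N x = C} = {x | inner ℝ n x = c}) : n ∈ Submodule.span ℝ {N} := by
  rw [← Submodule.orthogonal_orthogonal (Submodule.span ℝ {N}), Submodule.mem_orthogonal]
  intro w hw
  rw [Submodule.mem_orthogonal_singleton_iff_inner_right] at hw
  have h1 : (C / ‖N‖ ^ 2) • N ∈ {x : V d | inner ℝ N x = C} := mem_plane N hN C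
  have h2 : (C / ‖N‖ ^ 2) • N + w ∈ {x : V d | inner ℝ N x = C} := by
    change inner ℝ N ((C / ‖N‖ ^ 2) • N + w) = C
    rw [inner_add_right, mem_plane N hN C, hw, add_zero]
  rw [h] at h1 h2
  have h3 : inner ℝ n ((C / ‖N‖ ^ 2) • N) = c := h1
  have h4 : inner ℝ n ((C / ‖N‖ ^ 2) • N + w) = c := h2
  rw [inner_add_right, h3] at h4
  rw [real_inner_comm]
  linarith

theorem rank_eq {r : ℕ} (A : Fin (d + 1) → Fin r → Set (V d)) (N : Fin (d + 1) × Fin r → V d)
    (C : Fin (d + 1) × Fin r → ℝ) (hN : ∀ h, N h ≠ 0)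
    (hA : ∀ h : Fin (d + 1) × Fin r, A h.1 h.2 = {x | inner ℝ (N h) x = C h}) :
    rank A = finrank ℝ (Submodule.span ℝ (Set.range N)) := by
  unfold rank
  apply congrArg (fun S : Submodule ℝ (V d) => finrank ℝ S)
  apply le_antisymm
  · rw [Submodule.span_le]
    rintro n ⟨-, i, j, c, h⟩
    have h1 := hA (i, j)
    simp only at h1
    rw [h] at h1
    exact Submodule.span_mono (Set.singleton_subset_iff.2 (Set.mem_range_self (i, j)))
      (normal_span n (N (i, j)) (hN _) c (C (i, j)) h1.symm)
  · refine Submodule.span_mono ?_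
    rintro _ ⟨h, rfl⟩
    exact ⟨hN h, h.1, h.2, C h, hA h⟩

/-- many parts -/
theorem many {r : ℕ} (hd : 1 ≤ d) (A : Fin (d + 1) → Fin r → Set (V d))
    (hA : ∀ i j, IsHyperplane (A i j)) (hr : r ≤ rank A + 1) : Partitions A := by
  classical
  have hA' : ∀ h : Fin (d + 1) × Fin r, IsHyperplane (A h.1 h.2) := fun h => hA _ _
  choose N hN C hC using hA'
  rw [rank_eq A N C hN hC] at hr
  obtain ⟨q0, x, hx0, hx1, hx2⟩ := Pool.Agent.Results.MP_034a88_co.FractionalAllR.result.1 d hd
    (fun _ => r) A hA (fun _ _ => 1) r (fun _ _ => zero_le_one) (fun _ => by simp)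
  have hgood0 : ∀ T, x T ≠ 0 → ∀ u : V d, ∃ i,
      0 ≤ Pool.Agent.Helper95.Ct.sg N C q0 (i, T i) * inner ℝ (N (i, T i)) u := by
    intro T hT u
    exact rd_to (Nat.succ_pos d) (fun i => N (i, T i)) (fun i => hN _) (fun i => C (i, T i)) q0
      (fun i => A i (T i)) (fun i => hC (i, T i)) (hx1 T hT) u
  obtain ⟨q, hq1, hq2⟩ := Pool.Agent.Helper95.Ct.move_all N C
    (Fintype.card (Fin (d + 1) × Fin r)) q0 (Nat.le_add_left _ _)
  have hgood : ∀ T, x T ≠ 0 → ∀ u : V d, ∃ i,
      0 ≤ Pool.Agent.Helper95.Ct.sg N C q (i, T i) * inner ℝ (N (i, T i)) u := by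
    intro T hT u
    obtain ⟨i, hi⟩ := hgood0 T hT u
    obtain ⟨κ, hκ, e⟩ := hq1 (i, T i)
    refine ⟨i, ?_⟩
    rw [e, mul_assoc]
    exact mul_nonneg hκ hi
  -- the hyperplanes through `q`
  set J : Finset (Fin (d + 1) × Fin r) :=
    univ.filter fun h => Pool.Agent.Helper95.Ct.sg N C q h = 0 with hJ
  have hmJ : ∀ h, h ∈ J ↔ Pool.Agent.Helper95.Ct.sg N C q h = 0 := by
    intro h
    rw [hJ, mem_filter]
    simp
  have hJc : finrank ℝ (Submodule.span ℝ (Set.range N)) ≤ #J := by
    have h1 : N '' Pool.Agent.Helper95.Ct.Jk N C q = ((J.image N : Finset (V d)) : Set (V d)) := by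
      rw [coe_image]
      apply congrArg
      ext h
      rw [mem_coe, hmJ]
      rfl
    rw [← hq2, h1]
    exact le_trans (finrank_span_finset_le_card _) card_image_le
  rcases Nat.lt_or_ge #J r with hlt | hge
  · -- one part avoids `J`
    obtain ⟨s, rfl⟩ : ∃ s, r = s + 1 := ⟨r - 1, by omega⟩
    have hJs : #J = s := by omega
    have htot : ∑ T, x T = (s + 1 : ℕ) := by
      have h1 : ∀ T, x T = ∑ a, if T (0 : Fin (d + 1)) = a then x T else 0 := by
        intro T
        rw [sum_ite_eq]
        simp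
      rw [sum_congr rfl fun T _ => h1 T, sum_comm]
      rw [sum_congr rfl fun a _ => hx2 0 a]
      simp
    obtain ⟨T0, hT0, hT0J⟩ : ∃ T0, x T0 ≠ 0 ∧ ∀ i, (i, T0 i) ∉ J := by
      by_contra hcon
      push Not at hcon
      have h1 : ∀ T, x T ≤ ∑ h ∈ J, if T h.1 = h.2 then x T else 0 := by
        intro T
        by_cases hT : x T = 0
        · rw [hT]
          simp
        · obtain ⟨i, hi⟩ := hcon T hT
          refine le_trans ?_ (single_le_sum (f := fun h : Fin (d + 1) × Fin (s + 1) =>
            if T h.1 = h.2 then x T else 0) (fun h _ => ?_) hi)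
          · simp
          · split_ifs
            · exact hx0 T
            · exact le_rfl
      have h2 : ∑ T, x T ≤ ∑ h ∈ J, (1 : ℝ) := by
        refine le_trans (sum_le_sum fun T _ => h1 T) ?_
        rw [sum_comm]
        exact le_of_eq (sum_congr rfl fun h _ => hx2 h.1 h.2)
      rw [htot, sum_const, hJs, nsmul_eq_mul, mul_one] at h2
      have h3 : s + 1 ≤ s := by exact_mod_cast h2
      omega
    let e : Fin s → Fin (d + 1) × Fin (s + 1) := fun p => (J.equivFinOfCardEq hJs).symm p
    have heJ : ∀ p, e p ∈ J := fun p => ((J.equivFinOfCardEq hJs).symm p).2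
    have hei : Function.Injective e :=
      Subtype.val_injective.comp (J.equivFinOfCardEq hJs).symm.injective
    obtain ⟨σ, hσ⟩ := Pool.Agent.Helper95.Ct.complete (I := Fin (d + 1)) (r := s + 1)
      (fun p i => Fin.cases (motive := fun _ => Option (Fin (s + 1))) (some (T0 i))
        (fun p' => if (e p').1 = i then some (e p').2 else none) p) (by
        intro i p p' v hp hp'
        induction p using Fin.cases with
        | zero =>
          induction p' using Fin.cases with
          | zero => rfl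
          | succ k' =>
            exfalso
            simp only [Fin.cases_zero, Fin.cases_succ, Option.some.injEq] at hp hp'
            split_ifs at hp' with h1
            simp only [Option.some.injEq] at hp'
            apply hT0J i
            have h2 : (i, T0 i) = e k' := Prod.ext h1.symm (by rw [hp, ← hp'])
            rw [h2]
            exact heJ k'
        | succ k =>
          induction p' using Fin.cases with
          | zero =>
            exfalso
            simp only [Fin.cases_zero, Fin.cases_succ, Option.some.injEq] at hp hp'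
            split_ifs at hp with h1
            simp only [Option.some.injEq] at hp
            apply hT0J i
            have h2 : (i, T0 i) = e k := Prod.ext h1.symm (by rw [hp', ← hp])
            rw [h2]
            exact heJ k
          | succ k' =>
            simp only [Fin.cases_succ] at hp hp'
            split_ifs at hp with h1
            split_ifs at hp' with h2
            simp only [Option.some.injEq] at hp hp'
            have h3 : e k = e k' := Prod.ext (by rw [h1, h2]) (by rw [hp, hp'])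
            rw [hei h3])
    refine ⟨σ, q, fun p => ?_⟩
    refine rd_of hd (fun i => N (i, σ i p)) (fun i => C (i, σ i p)) q _ (fun i => hC (i, σ i p))
      fun u => ?_
    induction p using Fin.cases with
    | zero =>
      obtain ⟨i, hi⟩ := hgood T0 hT0 u
      refine ⟨i, ?_⟩
      have h1 := hσ 0 i (T0 i) (by simp)
      rw [h1]
      exact hi
    | succ k =>
      refine ⟨(e k).1, ?_⟩
      have h1 := hσ k.succ (e k).1 (e k).2 (by simp)
      rw [h1]
      have h2 : C (e k) - inner ℝ (N (e k)) q = 0 := (hmJ _).1 (heJ k)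
      change 0 ≤ (C (e k) - inner ℝ (N (e k)) q) * inner ℝ (N (e k)) u
      rw [h2, zero_mul]
  · -- a hyperplane through `q` for each part
    obtain ⟨e, he⟩ : ∃ e : Fin r → Fin (d + 1) × Fin r, Function.Injective e ∧ ∀ p, e p ∈ J := by
      refine ⟨fun p => (J.equivFin.symm (Fin.castLE hge p)), ?_, fun p =>
        (J.equivFin.symm (Fin.castLE hge p)).2⟩
      exact Subtype.val_injective.comp
        (J.equivFin.symm.injective.comp (Fin.castLE_injective hge))
    obtain ⟨hei, heJ⟩ := he
    obtain ⟨σ, hσ⟩ := Pool.Agent.Helper95.Ct.complete (I := Fin (d + 1)) (r := r)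
      (fun p i => if (e p).1 = i then some (e p).2 else none) (by
        intro i p p' v hp hp'
        split_ifs at hp with h1
        split_ifs at hp' with h2
        simp only [Option.some.injEq] at hp hp'
        exact hei (Prod.ext (by rw [h1, h2]) (by rw [hp, hp'])))
    refine ⟨σ, q, fun p => ?_⟩
    refine rd_of hd (fun i => N (i, σ i p)) (fun i => C (i, σ i p)) q _ (fun i => hC (i, σ i p))
      fun u => ?_
    refine ⟨(e p).1, ?_⟩
    have h1 := hσ p (e p).1 (e p).2 (by simp)
    rw [h1]
    have h2 : C (e p) - inner ℝ (N (e p)) q = 0 := (hmJ _).1 (heJ p)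
    change 0 ≤ (C (e p) - inner ℝ (N (e p)) q) * inner ℝ (N (e p)) u
    rw [h2, zero_mul]

/-- two vectors which expand the vectors of a subspace of dimension at most two -/
theorem two_vectors (W : Submodule ℝ (V d)) (hW : finrank ℝ W ≤ 2) :
    ∃ e1 e2 : V d, ∀ n ∈ W, n = (inner ℝ e1 n : ℝ) • e1 + (inner ℝ e2 n : ℝ) • e2 := by
  have h : finrank ℝ W = 0 ∨ finrank ℝ W = 1 ∨ finrank ℝ W = 2 := by omega
  rcases h with h | h | h
  · refine ⟨0, 0, fun n hn => ?_⟩
    rw [Submodule.finrank_eq_zero.1 h, Submodule.mem_bot] at hn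
    rw [hn]
    simp
  · let b := (stdOrthonormalBasis ℝ W).reindex (finCongr h)
    refine ⟨b 0, 0, fun n hn => ?_⟩
    have h1 := congrArg (fun w : W => (w : V d)) (b.sum_repr' ⟨n, hn⟩)
    simp only [Fin.sum_univ_one, Submodule.coe_smul, Submodule.coe_inner] at h1
    rw [smul_zero, add_zero]
    exact h1.symm
  · let b := (stdOrthonormalBasis ℝ W).reindex (finCongr h)
    refine ⟨b 0, b 1, fun n hn => ?_⟩
    have h1 := congrArg (fun w : W => (w : V d)) (b.sum_repr' ⟨n, hn⟩)
    simp only [Fin.sum_univ_two, Submodule.coe_add, Submodule.coe_smul, Submodule.coe_inner] at h1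
    exact h1.symm

/-- rank at most two -/
theorem few {r : ℕ} (hd : 1 ≤ d) (hr : 1 ≤ r) (A : Fin (d + 1) → Fin r → Set (V d))
    (hA : ∀ i j, IsHyperplane (A i j)) (h2 : rank A ≤ 2) : Partitions A := by
  rcases Nat.lt_or_ge d 2 with hd1 | hd2
  · -- dimension one
    obtain rfl : d = 1 := by omega
    obtain ⟨σ, q, hq⟩ := Pool.Agent.Results.MP_034a88_co.FractionalAllR.result.2.1 1 r le_rfl hr
      (fun _ => r) A hA (fun _ => le_rfl) (by
        rw [Nat.card_eq_fintype_card, Fintype.card_subtype]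
        exact le_trans (card_le_univ _) (by simp))
    refine ⟨fun i => Equiv.ofBijective (σ i) ?_, q, hq⟩
    exact Finite.injective_iff_bijective.1 (σ i).injective
  · have hA' : ∀ h : Fin (d + 1) × Fin r, IsHyperplane (A h.1 h.2) := fun h => hA _ _
    choose N hN C hC using hA'
    rw [rank_eq A N C hN hC] at h2
    obtain ⟨e1, e2, he⟩ := two_vectors _ h2
    have hexp : ∀ h, N h = (inner ℝ e1 (N h) : ℝ) • e1 + (inner ℝ e2 (N h) : ℝ) • e2 :=
      fun h => he _ (Submodule.subset_span ⟨h, rfl⟩)
    let N' : Fin (d + 1) × Fin r → V 2 := fun h => !₂[inner ℝ e1 (N h), inner ℝ e2 (N h)]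
    have hin : ∀ h (y : V 2), inner ℝ (N' h) y =
        inner ℝ e1 (N h) * y 0 + inner ℝ e2 (N h) * y 1 := by
      intro h y
      simp [N', PiLp.inner_apply, Fin.sum_univ_two, mul_comm]
    have hN' : ∀ h, N' h ≠ 0 := by
      intro h h0
      apply hN h
      have h3 : inner ℝ e1 (N h) = (0 : ℝ) := congrArg (fun v : V 2 => v 0) h0
      have h4 : inner ℝ e2 (N h) = (0 : ℝ) := congrArg (fun v : V 2 => v 1) h0
      rw [hexp h, h3, h4, zero_smul, zero_smul, add_zero]
    let cc : Fin 3 → Fin (d + 1) := Fin.castLE (by omega)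
    obtain ⟨σ', q', hq'⟩ := Pool.Agent.Results.MP_034a88_co.PlanarAllR.result r hr
      (fun i j => {y | inner ℝ (N' (cc i, j)) y = C (cc i, j)})
      (fun i j => ⟨N' (cc i, j), hN' _, C (cc i, j), rfl⟩)
    refine ⟨fun i => if h : i.val < 3 then σ' ⟨i.val, h⟩ else 1, (q' 0) • e1 + (q' 1) • e2,
      fun p => ?_⟩
    refine rd_of hd (fun i => N (i, _)) (fun i => C (i, _)) _ _ (fun i => hC (i, _)) fun u => ?_
    obtain ⟨i, hi⟩ := rd_to (by norm_num) (fun i => N' (cc i, σ' i p)) (fun i => hN' _)
      (fun i => C (cc i, σ' i p)) q' _ (fun i => rfl) (hq' p) (!₂[inner ℝ e1 u, inner ℝ e2 u])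
    refine ⟨cc i, ?_⟩
    have h5 : (if h : (cc i).val < 3 then σ' ⟨(cc i).val, h⟩ else 1) = σ' i := by
      have : (cc i).val < 3 := i.2
      rw [dif_pos this]
      rfl
    simp only [h5]
    have h6 : inner ℝ (N (cc i, σ' i p)) ((q' 0) • e1 + (q' 1) • e2) =
        inner ℝ (N' (cc i, σ' i p)) q' := by
      rw [hin, inner_add_right, inner_smul_right, inner_smul_right, real_inner_comm e1,
        real_inner_comm e2]
      ring
    have h7 : inner ℝ (N (cc i, σ' i p)) u =
        inner ℝ (N' (cc i, σ' i p)) (!₂[inner ℝ e1 u, inner ℝ e2 u]) := by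
      rw [hin]
      conv_lhs => rw [hexp (cc i, σ' i p)]
      rw [inner_add_left, inner_smul_left, inner_smul_left]
      simp
    rw [h6, h7]
    exact hi

end

/-- **The theorem.**  Let `A` be `d + 1` colour classes of `r` hyperplanes of `ℝ^d`, and let `rank A` be the
dimension of the span of the normal vectors.  The conclusion of Q1 holds if `r ≤ rank A + 1` or
`rank A ≤ 2`; so Q1 holds for `r = 3` in every dimension, and for all `r ≤ d + 1` and all `A` such that
no direction is parallel to all the hyperplanes. -/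
theorem result :
    (∀ (d r : ℕ), 1 ≤ d → 1 ≤ r → ∀ A : Fin (d + 1) → Fin r → Set (V d),
      (∀ i j, IsHyperplane (A i j)) → r ≤ rank A + 1 ∨ rank A ≤ 2 → Partitions A) ∧
    (∀ d : ℕ, 1 ≤ d → QOne d 3) ∧
    (∀ (d r : ℕ), 1 ≤ d → 1 ≤ r → r ≤ d + 1 → ∀ A : Fin (d + 1) → Fin r → Set (V d),
      (∀ i j, IsHyperplane (A i j)) → (∀ v : V d, v ≠ 0 → ∃ i j, ¬ ParallelTo v (A i j)) →
      Partitions A) := by
  have main : ∀ (d r : ℕ), 1 ≤ d → 1 ≤ r → ∀ A : Fin (d + 1) → Fin r → Set (V d),
      (∀ i j, IsHyperplane (A i j)) → r ≤ rank A + 1 ∨ rank A ≤ 2 → Partitions A := by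
    intro d r hd hr A hA h
    rcases h with h | h
    · exact many hd A hA h
    · exact few hd hr A hA h
  refine ⟨main, fun d hd A hA => main d 3 hd (by norm_num) A hA (by omega), ?_⟩
  intro d r hd hr hrd A hA hpar
  refine main d r hd hr A hA (Or.inl ?_)
  have hA' : ∀ h : Fin (d + 1) × Fin r, IsHyperplane (A h.1 h.2) := fun h => hA _ _
  choose N hN C hC using hA'
  rw [rank_eq A N C hN hC]
  have htop : Submodule.span ℝ (Set.range N) = ⊤ := by
    rw [← Submodule.orthogonal_eq_bot_iff, Submodule.eq_bot_iff]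
    intro v hv
    by_contra hv0
    obtain ⟨i, j, hij⟩ := hpar v hv0
    apply hij
    rw [show A i j = {x | inner ℝ (N (i, j)) x = C (i, j)} from hC (i, j)]
    intro x hx
    have hx' : inner ℝ (N (i, j)) x = C (i, j) := hx
    have h1 : inner ℝ (N (i, j)) v = (0 : ℝ) :=
      (Submodule.mem_orthogonal _ v).1 hv _ (Submodule.subset_span ⟨(i, j), rfl⟩)
    change inner ℝ (N (i, j)) (x + v) = C (i, j)
    rw [inner_add_right, hx', h1, add_zero]
  rw [htop, finrank_top, finrank_euclideanSpace_fin]
  exact hrd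

end Pool.Agent.Results.MP_034a88_co.RankRange
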